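import Mathlib
import Pool.Agent.Y820.LB.Classes
import Pool.Agent.Y820.LB.Bridge

/-!
# Mahler measures of integer matrices with an adapted inner product

Let `L` be a real number.  Consider the integer matrices `A`, of all sizes `n`, with irreducible
characteristic polynomial, for which there is a complex matrix `S` with `‖S‖ ‖S⁻¹‖ ≤ L` such that
`S⁻¹ A S` is, in an orthogonal decomposition of `ℂ ^ n`, the direct sum of a contraction and of a matrix
that does not decrease norms.  The closure of the set of the Mahler measures of the characteristic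
polynomials of these matrices consists of Mahler measures of integer polynomials in several
variables; below every bound it has finite Cantor-Bendixson rank.
-/

set_option autoImplicit false

namespace Pool.Agent.Results.MP_6d22ea_nt.AdaptedMatrices

open Polynomial

noncomputable section

/-- Value of an integer polynomial in `k` variables at the torus point
`(exp (2 π i t_1), …, exp (2 π i t_k))`. -/
def value {k : ℕ} (F : MvPolynomial (Fin k) ℤ) (t : Fin k → ℝ) : ℂ :=
  MvPolynomial.eval (fun j : Fin k => Complex.exp (2 * (Real.pi : ℂ) * Complex.I * ((t j : ℝ) : ℂ)))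
    (MvPolynomial.map (Int.castRingHom ℂ) F)

/-- The Mahler measure of an integer polynomial in `k` variables. -/
def mahler {k : ℕ} (F : MvPolynomial (Fin k) ℤ) : ℝ :=
  Real.exp (∫ t in Set.Icc (0 : Fin k → ℝ) 1, Real.log ‖value F t‖)

/-- The set of the Mahler measures of the nonzero integer polynomials in any number of variables. -/
def allMeasures : Set ℝ :=
  {x : ℝ | ∃ k : ℕ, 1 ≤ k ∧ ∃ F : MvPolynomial (Fin k) ℤ, F ≠ 0 ∧ x = mahler F}

/-- The sum of the squares of the absolute values of the coordinates. -/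
def sqNorm {n : ℕ} (x : Fin n → ℂ) : ℝ := ∑ i, ‖x i‖ ^ 2

/-- The condition number `‖S‖ ‖T‖` of a matrix `S` with inverse `T` is at most `L`. -/
def CondLe (L : ℝ) {n : ℕ} (S T : Matrix (Fin n) (Fin n) ℂ) : Prop :=
  ∃ a b : ℝ, 0 ≤ a ∧ 0 ≤ b ∧ a * b ≤ L ∧ (∀ x, sqNorm (S.mulVec x) ≤ a ^ 2 * sqNorm x) ∧
    ∀ x, sqNorm (T.mulVec x) ≤ b ^ 2 * sqNorm x

/-- There is a matrix `S` with `‖S‖ ‖S⁻¹‖ ≤ L` such that `B = S⁻¹ A S` commutes with an orthogonal
projection `E`, does not increase norms on the range of `E` and does not decrease norms on the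
orthogonal complement. -/
def IsAdapted (L : ℝ) {n : ℕ} (A : Matrix (Fin n) (Fin n) ℤ) : Prop :=
  ∃ S T B E : Matrix (Fin n) (Fin n) ℂ, S * T = 1 ∧
    A.map (Int.castRingHom ℂ) = S * B * T ∧ CondLe L S T ∧
    E.conjTranspose = E ∧ E * E = E ∧ B * E = E * B ∧
    (∀ x, sqNorm ((B * E).mulVec x) ≤ sqNorm (E.mulVec x)) ∧
    (∀ x, sqNorm ((1 - E).mulVec x) ≤ sqNorm ((B * (1 - E)).mulVec x))

/-- The Mahler measures of the irreducible characteristic polynomials of the matrices with an
adapted inner product. -/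
def adaptedMeasures (L : ℝ) : Set ℝ :=
  {x : ℝ | ∃ (n : ℕ) (A : Matrix (Fin n) (Fin n) ℤ), Irreducible A.charpoly ∧ IsAdapted L A ∧
    x = (A.charpoly.map (Int.castRingHom ℂ)).mahlerMeasure}

theorem result (L : ℝ) :
    closure (adaptedMeasures L) ⊆ allMeasures ∧
      ∀ B : ℝ, ∃ k : ℕ, ∀ x ∈ derivedSet^[k] (adaptedMeasures L), B ≤ x := by
  refine Pool.Agent.Y820.LB.good_closure (8 * (Real.log 2 + Real.log (1 + L))) (adaptedMeasures L) ?_
  rintro x ⟨n, A, hirr, ⟨S, T, B, E, h1, h2, ⟨a, b, ha, hb, hab, hS, hT⟩, h4, h5, h6, h7, h8⟩, rfl⟩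
  have hD : Pool.Agent.Y820.LB.Ad A S T B E L :=
    Pool.Agent.Y820.LB.ad_of L A S T B E a b h1 h2 ha hb hab hS hT h4 h5 h6 h7 h8
  exact ⟨A.charpoly, Pool.Agent.Y820.LB.good_ad hD hirr, rfl⟩

end

end Pool.Agent.Results.MP_6d22ea_nt.AdaptedMatrices
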