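import Mathlib
import Pool.Agent.Y820.LB.Classes

/-!
# Mahler measures of polynomials with bounded residues

Let `g(z) = h(z) / z ^ m` be a Laurent polynomial with integer coefficients, `h` monic of degree
larger than `m` (for example `z` or `z + 1/z`), and let `L` be a real number.  Consider the monic
integer polynomials `P` with simple zeros that have an integer polynomial `Q` of smaller degree such
that the sum of `|Q(a) / P'(a)|` over the zeros `a` of `P` is at most `L` and such that `Q` does not
vanish at the zeros of `P` of the form `g(z)`, `|z| > 1` (for example `Q = 1`; for irreducible `P` the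
last condition only says that `Q` is not zero).  The closure of the set of the Mahler measures of the
polynomials `z ^ (m deg P) P(g(z))` consists of Mahler measures of integer polynomials in several
variables; below every bound it has finite Cantor-Bendixson rank.
-/

set_option autoImplicit false

namespace Pool.Agent.Results.MP_6d22ea_nt.BoundedResidues

open Polynomial

noncomputable section

/-- Value of an integer polynomial in `k` variables at the torus point
`(exp (2 π i t_1), …, exp (2 π i t_k))`. -/
def value {k : ℕ} (F : MvPolynomial (Fin k) ℤ) (t : Fin k → ℝ) : ℂ :=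
  MvPolynomial.eval (fun j : Fin k => Complex.exp (2 * (Real.pi : ℂ) * Complex.I * ((t j : ℝ) : ℂ)))
    (MvPolynomial.map (Int.castRingHom ℂ) F)

/-- The Mahler measure of an integer polynomial in `k` variables. -/
def mahler {k : ℕ} (F : MvPolynomial (Fin k) ℤ) : ℝ :=
  Real.exp (∫ t in Set.Icc (0 : Fin k → ℝ) 1, Real.log ‖value F t‖)

/-- The set of the Mahler measures of the nonzero integer polynomials in any number of variables. -/
def allMeasures : Set ℝ :=
  {x : ℝ | ∃ k : ℕ, 1 ≤ k ∧ ∃ F : MvPolynomial (Fin k) ℤ, F ≠ 0 ∧ x = mahler F}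

/-- `Q` has smaller degree than `P`, `P` has simple zeros, and the sum of the absolute values of the
residues of `Q / P` is at most `L`. -/
def HasResidueBound (L : ℝ) (P Q : ℤ[X]) : Prop :=
  Q.degree < P.degree ∧ (P.map (Int.castRingHom ℂ)).roots.Nodup ∧
    ∑ a ∈ (P.map (Int.castRingHom ℂ)).roots.toFinset,
      ‖(Q.map (Int.castRingHom ℂ)).eval a‖ /
        ‖(derivative (P.map (Int.castRingHom ℂ))).eval a‖ ≤ L

/-- The polynomial `z ^ (m n) P(h(z) / z ^ m)` for a polynomial `P` of degree `n`. -/
def substituted (h : ℤ[X]) (m : ℕ) (P : ℤ[X]) : ℤ[X] :=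
  ∑ k ∈ Finset.range (P.natDegree + 1), C (P.coeff k) * h ^ k * X ^ (m * (P.natDegree - k))

/-- The measures of `z ^ (m n) P(h(z) / z ^ m)` for the monic polynomials `P` having a polynomial `Q`
with bounded residues that does not vanish at the zeros `h(z) / z ^ m`, `|z| > 1`, of `P`. -/
def residueMeasures (L : ℝ) (h : ℤ[X]) (m : ℕ) : Set ℝ :=
  {x : ℝ | ∃ P Q : ℤ[X], P.Monic ∧ HasResidueBound L P Q ∧
    (∀ z : ℂ, 1 < ‖z‖ →
      (P.map (Int.castRingHom ℂ)).eval ((h.map (Int.castRingHom ℂ)).eval z / z ^ m) = 0 →
      (Q.map (Int.castRingHom ℂ)).eval ((h.map (Int.castRingHom ℂ)).eval z / z ^ m) ≠ 0) ∧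
    x = ((substituted h m P).map (Int.castRingHom ℂ)).mahlerMeasure}

theorem result (L : ℝ) (h : ℤ[X]) (m : ℕ) (hh : h.Monic) (hm : m < h.natDegree) :
    closure (residueMeasures L h m) ⊆ allMeasures ∧
      ∀ B : ℝ, ∃ k : ℕ, ∀ x ∈ derivedSet^[k] (residueMeasures L h m), B ≤ x := by
  refine Pool.Agent.Y820.LB.good_closure
    (Pool.Agent.Y820.LB.subC (Pool.Agent.H261R2.CM.toC h) m L) (residueMeasures L h m) ?_
  rintro x ⟨P, Q, hP, ⟨h1, h2, h3⟩, hz, rfl⟩
  exact ⟨_, Pool.Agent.Y820.LB.good_res L h m hh hm P Q hP h1 h2 h3 hz, rfl⟩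

end

end Pool.Agent.Results.MP_6d22ea_nt.BoundedResidues
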